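import Pool.Agent.W770.PC.Stms

/-! Project PC (helper770), PC-cells: the cell inequalities for polynomials. -/

set_option autoImplicit false

open MeasureTheory Set Filter Topology
open scoped ENNReal NNReal

namespace Pool.Agent.W557.PC

open Pool.Agent.W770.PC

theorem totalDegree_pderiv_le {σ : Type} (p : MvPolynomial σ ℝ) (j : σ) :
    (MvPolynomial.pderiv j p).totalDegree ≤ p.totalDegree := by
  classical
  rw [MvPolynomial.totalDegree, Finset.sup_le_iff]
  intro m hm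
  rw [MvPolynomial.mem_support_iff, MvPolynomial.coeff_pderiv] at hm
  have h1 : m + Finsupp.single j 1 ∈ p.support := by
    rw [MvPolynomial.mem_support_iff]
    exact left_ne_zero_of_mul hm
  have h2 := MvPolynomial.le_totalDegree h1
  have h3 : ((m + Finsupp.single j 1).sum fun _ e => e) = (m.sum fun _ e => e) + 1 := by
    have : (m + Finsupp.single j 1).degree = m.degree + 1 := by
      rw [map_add, Finsupp.degree_single]
    exact this
  omega

theorem cell_eq (a : ℕ) (k : ℕ × ℕ) : cell a k = box (cen a k) ((2 ^ a)⁻¹) := by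
  unfold cell box cen
  congr 1 <;> congr 1 <;> ring

theorem box_mono (w : ℝ × ℝ) {r s : ℝ} (h : r ≤ s) : box w r ⊆ box w s := by
  rintro y ⟨⟨h1, h2⟩, ⟨h3, h4⟩⟩
  exact ⟨⟨by linarith, by linarith⟩, ⟨by linarith, by linarith⟩⟩

theorem isCompact_box (w : ℝ × ℝ) (r : ℝ) : IsCompact (box w r) :=
  isCompact_Icc.prod isCompact_Icc

theorem cells_thm (h1 : S_dpf) (h2 : S_norm) (h3 : S_cell) : S_cells := by
  intro D
  obtain ⟨C, hC, hN⟩ := h2 D
  refine ⟨48 * C, by positivity, fun Q hQ => ?_⟩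
  set Q11 := MvPolynomial.pderiv 0 (MvPolynomial.pderiv 0 Q) with hQ11
  set Q12 := MvPolynomial.pderiv 0 (MvPolynomial.pderiv 1 Q) with hQ12
  set Q22 := MvPolynomial.pderiv 1 (MvPolynomial.pderiv 1 Q) with hQ22
  have e11 : d1 (d1 (pf Q)) = pf Q11 := by rw [(h1 Q).2.1, (h1 _).2.1]
  have e12 : d1 (d2 (pf Q)) = pf Q12 := by rw [(h1 Q).2.2.1, (h1 _).2.1]
  have e22 : d2 (d2 (pf Q)) = pf Q22 := by rw [(h1 Q).2.2.1, (h1 _).2.2.1]
  have e111 : d1 (d1 (d1 (pf Q))) = pf (MvPolynomial.pderiv 0 Q11) := by rw [e11, (h1 _).2.1]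
  have e222 : d2 (d2 (d2 (pf Q))) = pf (MvPolynomial.pderiv 1 Q22) := by rw [e22, (h1 _).2.2.1]
  have g11 : Q11.totalDegree ≤ D :=
    (totalDegree_pderiv_le _ _).trans ((totalDegree_pderiv_le _ _).trans hQ)
  have g12 : Q12.totalDegree ≤ D :=
    (totalDegree_pderiv_le _ _).trans ((totalDegree_pderiv_le _ _).trans hQ)
  have g22 : Q22.totalDegree ≤ D :=
    (totalDegree_pderiv_le _ _).trans ((totalDegree_pderiv_le _ _).trans hQ)
  have hh : ∀ y, hess (pf Q) y = |pf Q11 y| + |pf Q12 y| + |pf Q22 y| := by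
    intro y
    unfold hess
    rw [e11, e12, e22]
  have hcont : ∀ P : MvPolynomial (Fin 2) ℝ, Continuous (fun y => |pf P y|) :=
    fun P => (h1 P).1.continuous.abs
  have hhc : Continuous (hess (pf Q)) := by
    have : hess (pf Q) = fun y => |pf Q11 y| + |pf Q12 y| + |pf Q22 y| := funext hh
    rw [this]
    exact ((hcont _).add (hcont _)).add (hcont _)
  have hint : ∀ (w : ℝ × ℝ) (r : ℝ) (f : ℝ × ℝ → ℝ), Continuous f →
      IntegrableOn f (box w r) := fun w r f hf => hf.continuousOn.integrableOn_compact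
        (isCompact_box w r)
  -- integrals of second derivatives
  have hle : ∀ (w : ℝ × ℝ) (r : ℝ) (P : MvPolynomial (Fin 2) ℝ),
      (∀ y, |pf P y| ≤ hess (pf Q) y) →
      ∫ v in box w r, |pf P v| ≤ ∫ v in box w r, hess (pf Q) v := by
    intro w r P hP
    exact setIntegral_mono (hint w r _ (hcont P)) (hint w r _ hhc) hP
  have l11 : ∀ y, |pf Q11 y| ≤ hess (pf Q) y := by
    intro y
    rw [hh]
    have := abs_nonneg (pf Q12 y)
    have := abs_nonneg (pf Q22 y)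
    linarith
  have l12 : ∀ y, |pf Q12 y| ≤ hess (pf Q) y := by
    intro y
    rw [hh]
    have := abs_nonneg (pf Q11 y)
    have := abs_nonneg (pf Q22 y)
    linarith
  have l22 : ∀ y, |pf Q22 y| ≤ hess (pf Q) y := by
    intro y
    rw [hh]
    have := abs_nonneg (pf Q11 y)
    have := abs_nonneg (pf Q12 y)
    linarith
  have hess0 : ∀ y, 0 ≤ hess (pf Q) y := fun y => (abs_nonneg _).trans (l11 y)
  have hNN0 : ∀ a k, 0 ≤ NN (pf Q) a k := fun a k =>
    integral_nonneg hess0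
  have hNN : ∀ a k, NN (pf Q) a k = ∫ v in box (cen a k) ((2 ^ a)⁻¹), hess (pf Q) v := by
    intro a k
    unfold NN
    rw [cell_eq]
  have p4 : ∀ a : ℕ, C / ((2 : ℝ) ^ a)⁻¹ ^ 2 = C * 4 ^ a := by
    intro a
    rw [inv_pow, div_inv_eq_mul, ← pow_mul, mul_comm a 2, pow_mul]
    norm_num
  have p8 : ∀ a : ℕ, C / ((2 : ℝ) ^ a)⁻¹ ^ 3 = C * 8 ^ a := by
    intro a
    rw [inv_pow, div_inv_eq_mul, ← pow_mul, mul_comm a 3, pow_mul]
    norm_num
  -- the bound for the Hessian on a large box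
  have hbig : ∀ (a : ℕ) (k : ℕ × ℕ), ∀ y ∈ box (cen a k) (8 * (2 ^ a)⁻¹),
      hess (pf Q) y ≤ 3 * (C * 4 ^ a * NN (pf Q) a k) := by
    intro a k y hy
    have hs : (0 : ℝ) < (2 ^ a)⁻¹ := by positivity
    have i1 := (hN Q11 g11 (cen a k) _ hs y hy).1
    have i2 := (hN Q12 g12 (cen a k) _ hs y hy).1
    have i3 := (hN Q22 g22 (cen a k) _ hs y hy).1
    rw [p4] at i1 i2 i3
    have hp : 0 ≤ C * 4 ^ a := by positivity
    have j1 := mul_le_mul_of_nonneg_left (hle (cen a k) ((2 ^ a)⁻¹) Q11 l11) hp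
    have j2 := mul_le_mul_of_nonneg_left (hle (cen a k) ((2 ^ a)⁻¹) Q12 l12) hp
    have j3 := mul_le_mul_of_nonneg_left (hle (cen a k) ((2 ^ a)⁻¹) Q22 l22) hp
    rw [hh, hNN]
    linarith
  have hsub : ∀ (a : ℕ) (k : ℕ × ℕ), cell a k ⊆ box (cen a k) (8 * (2 ^ a)⁻¹) := by
    intro a k
    rw [cell_eq]
    apply box_mono
    have : (0 : ℝ) < (2 ^ a)⁻¹ := by positivity
    linarith
  refine ⟨?_, ?_, ?_⟩
  · intro a k y hy
    refine (hbig a k y (hsub a k hy)).trans ?_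
    have : 0 ≤ C * 4 ^ a * NN (pf Q) a k := mul_nonneg (by positivity) (hNN0 a k)
    calc 3 * (C * 4 ^ a * NN (pf Q) a k) ≤ 48 * (C * 4 ^ a * NN (pf Q) a k) := by linarith
      _ = 48 * C * 4 ^ a * NN (pf Q) a k := by ring
  · intro a k y hy
    have hs : (0 : ℝ) < (2 ^ a)⁻¹ := by positivity
    have i1 := (hN Q11 g11 (cen a k) _ hs y (hsub a k hy)).2.1
    have i3 := (hN Q22 g22 (cen a k) _ hs y (hsub a k hy)).2.2
    rw [p8] at i1 i3
    have hp : 0 ≤ C * 8 ^ a := by positivity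
    have j1 := mul_le_mul_of_nonneg_left (hle (cen a k) ((2 ^ a)⁻¹) Q11 l11) hp
    have j3 := mul_le_mul_of_nonneg_left (hle (cen a k) ((2 ^ a)⁻¹) Q22 l22) hp
    rw [← hNN] at j1 j3
    rw [e111, e222]
    have h0 : 0 ≤ C * 8 ^ a * NN (pf Q) a k := mul_nonneg hp (hNN0 a k)
    calc |pf (MvPolynomial.pderiv 0 Q11) y| + |pf (MvPolynomial.pderiv 1 Q22) y| ≤
          C * 8 ^ a * NN (pf Q) a k + C * 8 ^ a * NN (pf Q) a k := by linarith
      _ ≤ 48 * (C * 8 ^ a * NN (pf Q) a k) := by linarith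
      _ = 48 * C * 8 ^ a * NN (pf Q) a k := by ring
  · intro a k k' hk1 hk2
    have hsub' : cell a k' ⊆ box (cen (a + 1) k) (8 * (2 ^ (a + 1))⁻¹) := by
      have hp : (0 : ℝ) < (2 ^ (a + 1))⁻¹ := by positivity
      have e1 : ((2 : ℝ) ^ a)⁻¹ = 2 * (2 ^ (a + 1))⁻¹ := by
        rw [pow_succ]
        field_simp
      rw [cell_eq]
      rintro y ⟨⟨y1, y2⟩, ⟨y3, y4⟩⟩
      have key : ∀ m n : ℕ, |2 * (m : ℤ) - n| ≤ 2 →
          |(m : ℝ) / 2 ^ a - (n : ℝ) / 2 ^ (a + 1)| ≤ 2 * (2 ^ (a + 1))⁻¹ := by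
        intro m n hmn
        have h5 : |2 * (m : ℝ) - n| ≤ 2 := by exact_mod_cast hmn
        have h6 : (m : ℝ) / 2 ^ a - (n : ℝ) / 2 ^ (a + 1) = (2 * m - n) * (2 ^ (a + 1))⁻¹ := by
          rw [div_eq_mul_inv, e1, div_eq_mul_inv]
          ring
        rw [h6, abs_mul, abs_of_pos hp]
        exact mul_le_mul_of_nonneg_right h5 hp.le
      have k1 := abs_le.1 (key _ _ hk1)
      have k2 := abs_le.1 (key _ _ hk2)
      simp only [cen] at y1 y2 y3 y4
      rw [e1] at y1 y2 y3 y4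
      refine ⟨⟨?_, ?_⟩, ⟨?_, ?_⟩⟩ <;> simp only [cen] <;> linarith
    have hvol : (volume : Measure (ℝ × ℝ)).real (cell a k') = 4 * (4 ^ a)⁻¹ := by
      rw [Measure.real, h3.2.1, ENNReal.toReal_ofReal (by positivity)]
    have hfin : volume (cell a k') < ∞ := by
      rw [h3.2.1]
      exact ENNReal.ofReal_lt_top
    have hb := norm_setIntegral_le_of_norm_le_const (f := hess (pf Q)) (s := cell a k')
      (C := 3 * (C * 4 ^ (a + 1) * NN (pf Q) (a + 1) k)) hfin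
      (fun y hy => by
        rw [Real.norm_eq_abs, abs_of_nonneg (hess0 y)]
        exact hbig (a + 1) k y (hsub' hy))
    have hb' : NN (pf Q) a k' ≤ 3 * (C * 4 ^ (a + 1) * NN (pf Q) (a + 1) k) * (4 * (4 ^ a)⁻¹) := by
      rw [hvol] at hb
      exact (le_abs_self _).trans hb
    refine hb'.trans (le_of_eq ?_)
    rw [pow_succ]
    field_simp
    ring

end Pool.Agent.W557.PC
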